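import Pool.Agent.Helper89.TT.Stmts

set_option autoImplicit false

open Finset

namespace Pool.Agent.Helper89.TT

/-- ND: nondegeneracy -/
def ST_ND : Prop := ∀ S G N Y a a' b b' g g' d d' : ℕ, Tup S G N Y a a' b b' g g' d d' →
  b * g' ≠ b' * g ∧ a * d' ≠ a' * d

/-- SYM: symmetry `b ↔ g` -/
def ST_SYM : Prop := ∀ S G N Y a a' b b' g g' d d' : ℕ, Tup S G N Y a a' b b' g g' d d' →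
  Tup S G N Y a a' g g' b b' d d'

/-- dyadic box -/
def InBox (i i' j j' k k' l l' a a' b b' g g' d d' : ℕ) : Prop :=
  Nat.log 2 a = i ∧ Nat.log 2 a' = i' ∧ Nat.log 2 b = j ∧ Nat.log 2 b' = j' ∧
  Nat.log 2 g = k ∧ Nat.log 2 g' = k' ∧ Nat.log 2 d = l ∧ Nat.log 2 d' = l'

/-- B1: one box, lattice strategy -/
def ST_B1 : Prop := ∀ ε : ℝ, 0 < ε → ∃ C : ℝ, 1 ≤ C ∧ ∀ N S G Y : ℕ, 1 ≤ N → 1 ≤ S → 1 ≤ G →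
  ∀ i i' j j' k k' l l' : ℕ,
  ∀ E : Finset ((ℕ × ℕ) × (ℕ × ℕ) × (ℕ × ℕ) × ℕ × ℕ),
  (∀ e ∈ E, Tup S G N Y e.1.1 e.1.2 e.2.1.1 e.2.1.2 e.2.2.1.1 e.2.2.1.2 e.2.2.2.1 e.2.2.2.2 ∧
    InBox i i' j j' k k' l l' e.1.1 e.1.2 e.2.1.1 e.2.1.2 e.2.2.1.1 e.2.2.1.2 e.2.2.2.1
      e.2.2.2.2) →
  (E.card : ℝ) ≤ C * ((S : ℝ) * G) ^ 24 * (N : ℝ) ^ ε * ((2 : ℝ) ^ i' * 2 ^ j') *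
    (1 + 2 ^ k' / 2 ^ i) * (1 + 2 ^ l / 2 ^ j')

/-- B3: one box, conics, the pairs `b b'` and `g g'` fixed -/
def ST_B3 : Prop := ∀ ε : ℝ, 0 < ε → ∃ C : ℝ, 1 ≤ C ∧ ∀ N S G Y : ℕ, 1 ≤ N → 1 ≤ S → 1 ≤ G →
  S ≤ 16 * N ^ 3 → ∀ i i' j j' k k' l l' : ℕ,
  ∀ E : Finset ((ℕ × ℕ) × (ℕ × ℕ) × (ℕ × ℕ) × ℕ × ℕ),
  (∀ e ∈ E, Tup S G N Y e.1.1 e.1.2 e.2.1.1 e.2.1.2 e.2.2.1.1 e.2.2.1.2 e.2.2.2.1 e.2.2.2.2 ∧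
    InBox i i' j j' k k' l l' e.1.1 e.1.2 e.2.1.1 e.2.1.2 e.2.2.1.1 e.2.2.1.2 e.2.2.2.1
      e.2.2.2.2) →
  (E.card : ℝ) ≤ C * ((S : ℝ) * G) ^ 24 * (N : ℝ) ^ ε * ((2 : ℝ) ^ j * 2 ^ j' * 2 ^ k * 2 ^ k') *
    Real.sqrt (2 ^ i' * 2 ^ j' * 2 ^ k * 2 ^ l)

/-- B4: one box, conics, the pairs `a a'` and `d d'` fixed -/
def ST_B4 : Prop := ∀ ε : ℝ, 0 < ε → ∃ C : ℝ, 1 ≤ C ∧ ∀ N S G Y : ℕ, 1 ≤ N → 1 ≤ S → 1 ≤ G →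
  S ≤ 16 * N ^ 3 → ∀ i i' j j' k k' l l' : ℕ,
  ∀ E : Finset ((ℕ × ℕ) × (ℕ × ℕ) × (ℕ × ℕ) × ℕ × ℕ),
  (∀ e ∈ E, Tup S G N Y e.1.1 e.1.2 e.2.1.1 e.2.1.2 e.2.2.1.1 e.2.2.1.2 e.2.2.2.1 e.2.2.2.2 ∧
    InBox i i' j j' k k' l l' e.1.1 e.1.2 e.2.1.1 e.2.1.2 e.2.2.1.1 e.2.2.1.2 e.2.2.2.1
      e.2.2.2.2) →
  (E.card : ℝ) ≤ C * ((S : ℝ) * G) ^ 24 * (N : ℝ) ^ ε * ((2 : ℝ) ^ i * 2 ^ i' * 2 ^ l * 2 ^ l') *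
    Real.sqrt (2 ^ i' * 2 ^ j' * 2 ^ k * 2 ^ l)

end Pool.Agent.Helper89.TT
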