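import Pool.Agent.Helper89.TT.Stmts3

set_option autoImplicit false

open Finset

namespace Pool.Agent.Helper89.TT

theorem all_mono (m n : ℕ) {X Y : ℕ} (h : X ≤ Y) : Prm m n X ⊆ Prm m n Y := by
  intro P hP
  unfold Prm Cmp at hP ⊢
  rw [Finset.mem_filter, Finset.mem_filter, Finset.mem_product, Finset.mem_powersetCard,
    Finset.mem_powersetCard] at hP ⊢
  obtain ⟨⟨⟨h1, h2⟩, h3⟩, h4⟩ := hP
  have h5 : Finset.Icc 1 X ⊆ Finset.Icc 1 Y := Finset.Icc_subset_Icc_right h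
  exact ⟨⟨⟨⟨h1.1.trans h5, h1.2⟩, ⟨h2.1.trans h5, h2.2⟩⟩, h3⟩, h4⟩

theorem all_zero (m n : ℕ) (hm : 2 ≤ m) : Prm m n 0 = ∅ := by
  apply Finset.eq_empty_of_forall_notMem
  intro P hP
  unfold Prm Cmp at hP
  rw [Finset.mem_filter, Finset.mem_filter, Finset.mem_product, Finset.mem_powersetCard] at hP
  have h1 := hP.1.1.1
  have h2 := Finset.card_le_card h1.1
  rw [h1.2, Nat.card_Icc] at h2
  omega

theorem st_ALL (hF : ST_FIN3) (hS : ST_SCALE) (hT : ST_TAUB) : ST_ALL := by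
  intro m n hm hn
  obtain ⟨C, hC⟩ := hF m n hm hn
  have hm' : (2 : ℝ) ≤ (m : ℝ) := by exact_mod_cast hm
  have hn' : (2 : ℝ) ≤ (n : ℝ) := by exact_mod_cast hn
  have h1 : (0 : ℝ) < 1 / (192000 * ((m : ℝ) + n)) := by positivity
  have h2 : 1 / (192000 * ((m : ℝ) + n)) < 1 := by
    rw [div_lt_one (by positivity)]
    linarith
  have hmono : Monotone (fun X => (Prm m n X).card) :=
    fun X Y h => Finset.card_le_card (all_mono m n h)
  obtain ⟨c, C', hc0, hc1, hc2⟩ := hT (fun X => (Prm m n X).card) C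
    (1 - 1 / (192000 * ((m : ℝ) + n))) hmono (by
      show (Prm m n 0).card = 0
      rw [all_zero m n hm, Finset.card_empty]) (by linarith) (by linarith) hC
  refine ⟨c, max C C', hc0, ?_, ?_⟩
  · rw [hc1]
    constructor
    · rintro ⟨Y, hY⟩
      obtain ⟨P, hP⟩ := Finset.card_pos.1 hY
      exact ⟨Y, P, (Finset.mem_filter.1 hP).1⟩
    · rintro ⟨X, hX⟩
      have h3 := Finset.card_pos.2 hX
      rw [hS m n X hm hn] at h3
      obtain ⟨g, _, hg⟩ := Finset.exists_ne_zero_of_sum_ne_zero h3.ne'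
      exact ⟨X / g, Nat.pos_of_ne_zero hg⟩
  · intro X hX
    refine ⟨(hC X hX).trans (mul_le_mul_of_nonneg_right (le_max_left _ _) (by positivity)), ?_⟩
    have h4 := hc2 X hX
    rw [hS m n X hm hn]
    push_cast
    exact h4.trans (mul_le_mul_of_nonneg_right (le_max_right _ _) (by positivity))

end Pool.Agent.Helper89.TT
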