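import Pool.Agent.Helper89.TT.Stmts

set_option autoImplicit false

open Finset

namespace Pool.Agent.Helper89.TT

/-- counting by fibres, real version -/
theorem fib_le {α β : Type*} [DecidableEq β] (S : Finset α) (f : α → β) (m n : ℝ)
    (hm : ((S.image f).card : ℝ) ≤ m) (hn : 0 ≤ n)
    (h : ∀ b ∈ S.image f, ((S.filter (fun x => f x = b)).card : ℝ) ≤ n) :
    (S.card : ℝ) ≤ m * n := by
  have h1 : (S.card : ℝ) = ∑ b ∈ S.image f, ((S.filter (fun x => f x = b)).card : ℝ) := by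
    rw [← Nat.cast_sum, ← Finset.card_eq_sum_card_image]
  rw [h1]
  calc ∑ b ∈ S.image f, ((S.filter (fun x => f x = b)).card : ℝ)
      ≤ ∑ _b ∈ S.image f, n := Finset.sum_le_sum h
    _ = ((S.image f).card : ℝ) * n := by rw [Finset.sum_const, nsmul_eq_mul]
    _ ≤ m * n := mul_le_mul_of_nonneg_right hm hn

/-- the fibre over `b`, pushed forward by an injective (on the fibre) map -/
theorem card_le_of_inj {α β : Type*} [DecidableEq β] (S : Finset α) (f : α → β) (n : ℝ)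
    (hf : ∀ x ∈ S, ∀ y ∈ S, f x = f y → x = y) (h : ((S.image f).card : ℝ) ≤ n) :
    (S.card : ℝ) ≤ n := by
  have h1 : (S.image f).card = S.card :=
    Finset.card_image_of_injOn (fun x hx y hy h => hf x hx y hy h)
  rw [h1] at h
  exact h

/-- few positive integers with square at most `W` -/
theorem card_sq_le (W : ℕ) (Q : Finset ℕ) (h : ∀ q ∈ Q, 0 < q ∧ q ^ 2 ≤ W) :
    (Q.card : ℝ) ≤ Real.sqrt W := by
  have h1 : Q ⊆ Finset.Icc 1 (Nat.sqrt W) := by
    intro q hq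
    have := h q hq
    rw [Finset.mem_Icc]
    exact ⟨this.1, Nat.le_sqrt'.2 this.2⟩
  have h2 := Finset.card_le_card h1
  rw [Nat.card_Icc, Nat.add_sub_cancel] at h2
  calc (Q.card : ℝ) ≤ (Nat.sqrt W : ℝ) := by exact_mod_cast h2
    _ ≤ Real.sqrt W := Real.nat_sqrt_le_real_sqrt

/-- few positive integers up to `W` -/
theorem card_le_top (W : ℕ) (Q : Finset ℕ) (h : ∀ q ∈ Q, 1 ≤ q ∧ q ≤ W) :
    (Q.card : ℝ) ≤ W := by
  have h1 : Q ⊆ Finset.Icc 1 W := by
    intro q hq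
    have := h q hq
    rw [Finset.mem_Icc]
    exact ⟨this.1, this.2⟩
  have h2 := Finset.card_le_card h1
  rw [Nat.card_Icc, Nat.add_sub_cancel] at h2
  exact_mod_cast h2

/-- numbers with given binary logarithm -/
theorem card_log (i : ℕ) (Q : Finset ℕ) (h : ∀ q ∈ Q, 0 < q ∧ Nat.log 2 q = i) :
    (Q.card : ℝ) ≤ 2 ^ i := by
  have h1 : Q ⊆ Finset.Ico (2 ^ i) (2 ^ (i + 1)) := by
    intro q hq
    have h0 := h q hq
    rw [Finset.mem_Ico]
    rw [← h0.2]
    exact ⟨Nat.pow_log_le_self 2 h0.1.ne', Nat.lt_pow_succ_log_self (by norm_num) q⟩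
  have h2 := Finset.card_le_card h1
  rw [Nat.card_Ico] at h2
  have h3 : 2 ^ (i + 1) - 2 ^ i = 2 ^ i := by
    rw [pow_succ]; omega
  rw [h3] at h2
  exact_mod_cast h2

end Pool.Agent.Helper89.TT
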