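import Pool.Agent.Helper89.TT.Stmts
import Pool.Agent.Helper11.RK.CONIC
import Pool.Agent.Helper7.RK.PELLN
import Pool.Agent.Helper11.RK.PELL4

set_option autoImplicit false

open Finset

namespace Pool.Agent.Helper89.TT

theorem con_conic : Pool.Agent.Helper97.RK.ST_CONIC :=
  Pool.Agent.Helper97.RK.st_CONIC
    (Pool.Agent.Helper97.RK.st_PELLN Pool.Agent.Helper97.RK.st_PELL4)

theorem st_CON : ST_CON := by
  intro ε hε j
  rcases Nat.eq_zero_or_pos j with hj | hj
  · subst hj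
    refine ⟨1, le_refl _, fun N hN a b c ha _ _ ha0 => ?_⟩
    exfalso
    simp only [Nat.cast_zero, zero_mul, abs_nonpos_iff] at ha
    exact ha0 ha
  · obtain ⟨D, hD, h⟩ := con_conic (ε / j) (by positivity) j
    refine ⟨max D 1, le_max_right _ _, fun N hN a b c ha hb hc ha0 hdisc S hS => ?_⟩
    have hN1 : 1 ≤ N ^ j := Nat.one_le_pow _ _ hN
    have hNZ : (1 : ℤ) ≤ (N : ℤ) ^ j := by exact_mod_cast hN1
    have h6 : (j : ℤ) * (N : ℤ) ^ j ≤ (j : ℤ) * ((N ^ j : ℕ) : ℤ) ^ 6 := by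
      push_cast
      apply mul_le_mul_of_nonneg_left _ (by positivity)
      exact le_self_pow₀ hNZ (by norm_num)
    have h2 : (j : ℤ) * (N : ℤ) ^ j ≤ (j : ℤ) * ((N ^ j : ℕ) : ℤ) ^ 2 := by
      push_cast
      apply mul_le_mul_of_nonneg_left _ (by positivity)
      exact le_self_pow₀ hNZ (by norm_num)
    obtain ⟨hfin, hcard⟩ := h (N ^ j) hN1 a b c (ha.trans h6) (hb.trans h6) (hc.trans h6) ha0 hdisc
    have hch : ∀ x : ℕ, ∃ y : ℤ, x ∈ S → y ^ 2 = a * (x : ℤ) ^ 2 + b * (x : ℤ) + c := by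
      intro x
      by_cases hx : x ∈ S
      · obtain ⟨y, hy⟩ := (hS x hx).2
        exact ⟨y, fun _ => by rw [hy]; ring⟩
      · exact ⟨0, fun hx' => absurd hx' hx⟩
    choose y hy using hch
    have hsub : ((S.image (fun x : ℕ => ((x : ℤ), y x)) : Finset (ℤ × ℤ)) : Set (ℤ × ℤ)) ⊆
        {v : ℤ × ℤ | |v.1| ≤ j * ((N ^ j : ℕ) : ℤ) ^ 2 ∧ v.2 ^ 2 = a * v.1 ^ 2 + b * v.1 + c} := by
      intro v hv
      rw [Finset.mem_coe, Finset.mem_image] at hv
      obtain ⟨x, hx, rfl⟩ := hv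
      refine ⟨?_, hy x hx⟩
      have h3 := (hS x hx).1
      have h4 : (x : ℤ) ≤ (j : ℤ) * (N : ℤ) ^ j := by exact_mod_cast h3
      show |(x : ℤ)| ≤ _
      rw [abs_of_nonneg (by positivity)]
      exact h4.trans h2
    have h5 := Set.ncard_le_ncard hsub hfin
    rw [Set.ncard_coe_finset, Finset.card_image_of_injective] at h5
    · have h7 : (S.card : ℝ) ≤ D * ((N ^ j : ℕ) : ℝ) ^ (ε / j) :=
        le_trans (by exact_mod_cast h5) hcard
      have h8 : ((N ^ j : ℕ) : ℝ) ^ (ε / j) = (N : ℝ) ^ ε := by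
        push_cast
        rw [← Real.rpow_natCast (N : ℝ) j, ← Real.rpow_mul (by positivity)]
        congr 1
        field_simp
      rw [h8] at h7
      exact h7.trans (mul_le_mul_of_nonneg_right (le_max_left _ _) (by positivity))
    · intro x1 x2 h9
      have h10 : (x1 : ℤ) = (x2 : ℤ) := congrArg Prod.fst h9
      exact_mod_cast h10

end Pool.Agent.Helper89.TT
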