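import Pool.Agent.Helper89.TT.Stmts
import Pool.Agent.Helper15.HallDiv

set_option autoImplicit false

open Finset Pool.Agent.Helper15.Hall

namespace Pool.Agent.Helper89.TT

theorem st_DV : ST_DV := by
  intro ε hε j
  rcases Nat.eq_zero_or_pos j with hj | hj
  · subst hj
    refine ⟨1, le_refl _, fun N hN n hn hn2 => ?_⟩
    exfalso; omega
  · obtain ⟨C, hC, h⟩ := card_divisors_le_uniform (ε / j) (by positivity)
    refine ⟨C * (j : ℝ) ^ (ε / j), ?_, fun N hN n hn hn2 => ?_⟩
    · have h1 : (1 : ℝ) ≤ (j : ℝ) ^ (ε / j) :=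
        Real.one_le_rpow (by exact_mod_cast hj) (by positivity)
      nlinarith
    · have h1 := h (j * N ^ j) n (by omega) hn2
      refine le_trans h1 (le_of_eq ?_)
      have hN0 : (0 : ℝ) ≤ (N : ℝ) := by positivity
      push_cast
      rw [Real.mul_rpow (by positivity) (by positivity), ← Real.rpow_natCast (N : ℝ) j,
        ← Real.rpow_mul hN0, mul_assoc]
      congr 3
      field_simp

end Pool.Agent.Helper89.TT
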