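import Pool.Agent.Helper89.TT.Basic

set_option autoImplicit false

open Finset

namespace Pool.Agent.Helper89.TT

/-- the pairs that are counted -/
def FinP (m n X : ℕ) (P : Finset ℕ × Finset ℕ) : Prop :=
  P.1.card = m ∧ P.2.card = n ∧ (∀ a ∈ P.1, ∀ b ∈ P.2, IsSquare (a ^ 2 + b ^ 2)) ∧
    (∀ x ∈ P.1 ∪ P.2, 1 ≤ x ∧ x ≤ X) ∧ (P.1 ∪ P.2).gcd id = 1

open Classical in
/-- the neighbours of `a` -/
noncomputable def finNbr (X a : ℕ) : Finset ℕ :=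
  (Finset.Icc 1 X).filter (fun x => IsSquare (a ^ 2 + x ^ 2))

theorem fin_fib (X m n : ℕ) (L : ℝ) (hL0 : 0 ≤ L)
    (hL : ∀ a, 1 ≤ a → a ≤ X → ((finNbr X a).card : ℝ) ≤ L)
    (W : Finset (Finset ℕ × Finset ℕ)) (hW : ∀ P ∈ W, FinP m n X P)
    (q : Finset ℕ × Finset ℕ → ℕ × ℕ × ℕ × ℕ)
    (hq : ∀ P ∈ W, (q P).1 ∈ P.1 ∧ (q P).2.2.1 ∈ P.2) (B : ℝ)
    (hB : ((W.image q).card : ℝ) ≤ B) : (W.card : ℝ) ≤ B * L ^ (m + n) := by
  apply fib_le W q B _ hB (by positivity)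
  intro z hz
  obtain ⟨P0, hP0, hz0⟩ := Finset.mem_image.1 hz
  have hz1 : 1 ≤ z.1 ∧ z.1 ≤ X := by
    rw [← hz0]
    exact (hW P0 hP0).2.2.2.1 _ (Finset.mem_union_left _ (hq P0 hP0).1)
  have hz2 : 1 ≤ z.2.2.1 ∧ z.2.2.1 ≤ X := by
    rw [← hz0]
    exact (hW P0 hP0).2.2.2.1 _ (Finset.mem_union_right _ (hq P0 hP0).2)
  have hsub : W.filter (fun x => q x = z) ⊆
      Finset.powersetCard m (finNbr X z.2.2.1) ×ˢ Finset.powersetCard n (finNbr X z.1) := by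
    intro P hP
    rw [Finset.mem_filter] at hP
    obtain ⟨hP1, hP2⟩ := hP
    have h1 := hW P hP1
    have h2 := hq P hP1
    rw [hP2] at h2
    rw [Finset.mem_product, Finset.mem_powersetCard, Finset.mem_powersetCard]
    refine ⟨⟨?_, h1.1⟩, ?_, h1.2.1⟩
    · intro x hx
      unfold finNbr
      rw [Finset.mem_filter, Finset.mem_Icc]
      refine ⟨h1.2.2.2.1 x (Finset.mem_union_left _ hx), ?_⟩
      rw [add_comm]
      exact h1.2.2.1 x hx _ h2.2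
    · intro x hx
      unfold finNbr
      rw [Finset.mem_filter, Finset.mem_Icc]
      exact ⟨h1.2.2.2.1 x (Finset.mem_union_right _ hx), h1.2.2.1 _ h2.1 x hx⟩
  have h3 := Finset.card_le_card hsub
  rw [Finset.card_product, Finset.card_powersetCard, Finset.card_powersetCard] at h3
  have h4 : ((finNbr X z.2.2.1).card.choose m : ℝ) ≤ L ^ m := by
    have h5 : (finNbr X z.2.2.1).card.choose m ≤ (finNbr X z.2.2.1).card ^ m :=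
      Nat.choose_le_pow _ _
    calc ((finNbr X z.2.2.1).card.choose m : ℝ) ≤ ((finNbr X z.2.2.1).card : ℝ) ^ m := by
          exact_mod_cast h5
      _ ≤ L ^ m := pow_le_pow_left₀ (by positivity) (hL _ hz2.1 hz2.2) m
  have h6 : ((finNbr X z.1).card.choose n : ℝ) ≤ L ^ n := by
    have h5 : (finNbr X z.1).card.choose n ≤ (finNbr X z.1).card ^ n :=
      Nat.choose_le_pow _ _
    calc ((finNbr X z.1).card.choose n : ℝ) ≤ ((finNbr X z.1).card : ℝ) ^ n := by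
          exact_mod_cast h5
      _ ≤ L ^ n := pow_le_pow_left₀ (by positivity) (hL _ hz1.1 hz1.2) n
  calc ((W.filter (fun x => q x = z)).card : ℝ)
      ≤ ((finNbr X z.2.2.1).card.choose m : ℝ) * ((finNbr X z.1).card.choose n : ℝ) := by
        exact_mod_cast h3
    _ ≤ L ^ m * L ^ n := mul_le_mul h4 h6 (by positivity) (by positivity)
    _ = L ^ (m + n) := by rw [pow_add]

/-- a quadruple in a pair -/
def FinQ (P : Finset ℕ × Finset ℕ) (z : ℕ × ℕ × ℕ × ℕ) : Prop :=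
  z.1 ∈ P.1 ∧ z.2.1 ∈ P.1 ∧ z.2.2.1 ∈ P.2 ∧ z.2.2.2 ∈ P.2 ∧ z.1 ≠ z.2.1 ∧ z.2.2.1 ≠ z.2.2.2

theorem fin_quad {m n X : ℕ} {P : Finset ℕ × Finset ℕ} (hP : FinP m n X P)
    {z : ℕ × ℕ × ℕ × ℕ} (hz : FinQ P z) : Quad X z.1 z.2.1 z.2.2.1 z.2.2.2 := by
  obtain ⟨_, _, hs, hb, _⟩ := hP
  obtain ⟨h1, h2, h3, h4, h5, h6⟩ := hz
  have b1 := hb _ (Finset.mem_union_left _ h1)
  have b2 := hb _ (Finset.mem_union_left _ h2)
  have b3 := hb _ (Finset.mem_union_right _ h3)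
  have b4 := hb _ (Finset.mem_union_right _ h4)
  exact ⟨b1.1, b1.2, b2.1, b2.2, b3.1, b3.2, b4.1, b4.2, h5, h6, hs _ h1 _ h3, hs _ h1 _ h4,
    hs _ h2 _ h3, hs _ h2 _ h4⟩

theorem fin_ex {m n X : ℕ} (hm : 2 ≤ m) (hn : 2 ≤ n) {P : Finset ℕ × Finset ℕ}
    (hP : FinP m n X P) : ∃ z, FinQ P z := by
  have h1 : 1 < P.1.card := by rw [hP.1]; omega
  have h2 : 1 < P.2.card := by rw [hP.2.1]; omega
  obtain ⟨a, ha, a', ha', hne⟩ := Finset.one_lt_card.1 h1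
  obtain ⟨b, hb, b', hb', hne'⟩ := Finset.one_lt_card.1 h2
  exact ⟨(a, a', b, b'), ha, ha', hb, hb', hne, hne'⟩

/-- the exponents -/
theorem fin_exp (C₁ C₂ C₃ c e : ℝ) (t : ℕ) (ht : 5 ≤ t) (hC₁ : 1 ≤ C₁) (hC₂ : 1 ≤ C₂)
    (hC₃ : 1 ≤ C₃) (hc : c = 1 / (96000 * t)) (he : e = c / (4 * (t + 2))) (X M K : ℕ)
    (hX : 1 ≤ X) (hM : M = ⌈(X : ℝ) ^ c⌉₊) (hK : K ≤ (4 * M ^ 10) ^ t) :
    C₁ * (X : ℝ) ^ (1 + e) / (M : ℝ) * (C₃ * (X : ℝ) ^ e) ^ t +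
      C₂ * (K : ℝ) ^ 96 * (X : ℝ) ^ (19 / 20 + e) * (C₃ * (X : ℝ) ^ e) ^ t ≤
      (C₁ * C₃ ^ t + C₂ * (4096 ^ t) ^ 96 * C₃ ^ t) * (X : ℝ) ^ (1 - c / 2) := by
  have hX1 : (1 : ℝ) ≤ (X : ℝ) := by exact_mod_cast hX
  have hX0 : (0 : ℝ) < (X : ℝ) := by linarith
  have ht' : (5 : ℝ) ≤ (t : ℝ) := by exact_mod_cast ht
  have hc0 : 0 < c := by rw [hc]; positivity
  have he0 : 0 < e := by rw [he]; positivity
  have hXc1 : (1 : ℝ) ≤ (X : ℝ) ^ c := Real.one_le_rpow hX1 hc0.le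
  have hM1 : (X : ℝ) ^ c ≤ (M : ℝ) := by rw [hM]; exact Nat.le_ceil _
  have hM2 : (M : ℝ) ≤ 2 * (X : ℝ) ^ c := by
    have := Nat.ceil_lt_add_one (show (0 : ℝ) ≤ (X : ℝ) ^ c by positivity)
    rw [← hM] at this
    linarith
  have hM0 : (0 : ℝ) < (M : ℝ) := by linarith
  have hte : (t + 1) * e ≤ c / 2 := by
    rw [he]
    rw [mul_div_assoc', div_le_div_iff₀ (by positivity) (by norm_num)]
    nlinarith
  have htc : (t : ℝ) * (960 * c) = 1 / 100 := by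
    rw [hc]; field_simp; norm_num
  have hpow : (C₃ * (X : ℝ) ^ e) ^ t = C₃ ^ t * (X : ℝ) ^ (t * e) := by
    rw [mul_pow, ← Real.rpow_natCast ((X : ℝ) ^ e) t, ← Real.rpow_mul hX0.le, mul_comm e]
  have hA : C₁ * (X : ℝ) ^ (1 + e) / (M : ℝ) * (C₃ * (X : ℝ) ^ e) ^ t ≤
      C₁ * C₃ ^ t * (X : ℝ) ^ (1 - c / 2) := by
    have h1 : C₁ * (X : ℝ) ^ (1 + e) / (M : ℝ) ≤ C₁ * (X : ℝ) ^ (1 + e) / (X : ℝ) ^ c :=
      div_le_div_of_nonneg_left (by positivity) (by positivity) hM1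
    have h2 : C₁ * (X : ℝ) ^ (1 + e) / (X : ℝ) ^ c * (C₃ * (X : ℝ) ^ e) ^ t =
        C₁ * C₃ ^ t * (X : ℝ) ^ (1 + e - c + t * e) := by
      rw [hpow, Real.rpow_add hX0 (1 + e - c) (t * e), Real.rpow_sub hX0 (1 + e) c]
      ring
    have h3 : (X : ℝ) ^ (1 + e - c + t * e) ≤ (X : ℝ) ^ (1 - c / 2) :=
      Real.rpow_le_rpow_of_exponent_le hX1 (by nlinarith)
    calc C₁ * (X : ℝ) ^ (1 + e) / (M : ℝ) * (C₃ * (X : ℝ) ^ e) ^ t
        ≤ C₁ * (X : ℝ) ^ (1 + e) / (X : ℝ) ^ c * (C₃ * (X : ℝ) ^ e) ^ t :=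
          mul_le_mul_of_nonneg_right h1 (by positivity)
      _ = C₁ * C₃ ^ t * (X : ℝ) ^ (1 + e - c + t * e) := h2
      _ ≤ C₁ * C₃ ^ t * (X : ℝ) ^ (1 - c / 2) := mul_le_mul_of_nonneg_left h3 (by positivity)
  have hKb : (K : ℝ) ^ 96 ≤ (4096 ^ t) ^ 96 * (X : ℝ) ^ ((1 : ℝ) / 100) := by
    have h1 : (K : ℝ) ≤ (4 * (M : ℝ) ^ 10) ^ t := by exact_mod_cast hK
    have h2 : 4 * (M : ℝ) ^ 10 ≤ 4096 * ((X : ℝ) ^ c) ^ 10 := by
      have h3 : (M : ℝ) ^ 10 ≤ (2 * (X : ℝ) ^ c) ^ 10 := pow_le_pow_left₀ hM0.le hM2 10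
      have h4 : (2 * (X : ℝ) ^ c) ^ 10 = 1024 * ((X : ℝ) ^ c) ^ 10 := by ring
      rw [h4] at h3
      linarith
    have h5 : (K : ℝ) ≤ (4096 * ((X : ℝ) ^ c) ^ 10) ^ t :=
      h1.trans (pow_le_pow_left₀ (by positivity) h2 t)
    have h6 : (K : ℝ) ^ 96 ≤ ((4096 * ((X : ℝ) ^ c) ^ 10) ^ t) ^ 96 :=
      pow_le_pow_left₀ (by positivity) h5 96
    refine h6.trans (le_of_eq ?_)
    rw [mul_pow, mul_pow]
    congr 1
    rw [← pow_mul, ← pow_mul, ← Real.rpow_natCast ((X : ℝ) ^ c), ← Real.rpow_mul hX0.le]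
    congr 1
    rw [← htc]
    push_cast
    ring
  have hB : C₂ * (K : ℝ) ^ 96 * (X : ℝ) ^ (19 / 20 + e) * (C₃ * (X : ℝ) ^ e) ^ t ≤
      C₂ * (4096 ^ t) ^ 96 * C₃ ^ t * (X : ℝ) ^ (1 - c / 2) := by
    have hc1 : c ≤ 1 / 480000 := by
      rw [hc]
      apply one_div_le_one_div_of_le (by norm_num)
      linarith
    have h1 : (X : ℝ) ^ ((1 : ℝ) / 100 + (19 / 20 + e) + t * e) ≤ (X : ℝ) ^ (1 - c / 2) :=
      Real.rpow_le_rpow_of_exponent_le hX1 (by nlinarith)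
    calc C₂ * (K : ℝ) ^ 96 * (X : ℝ) ^ (19 / 20 + e) * (C₃ * (X : ℝ) ^ e) ^ t
        ≤ C₂ * ((4096 ^ t) ^ 96 * (X : ℝ) ^ ((1 : ℝ) / 100)) * (X : ℝ) ^ (19 / 20 + e) *
          (C₃ * (X : ℝ) ^ e) ^ t := by
          apply mul_le_mul_of_nonneg_right _ (by positivity)
          apply mul_le_mul_of_nonneg_right _ (by positivity)
          exact mul_le_mul_of_nonneg_left hKb (by linarith)
      _ = C₂ * (4096 ^ t) ^ 96 * C₃ ^ t *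
          (X : ℝ) ^ ((1 : ℝ) / 100 + (19 / 20 + e) + t * e) := by
          rw [hpow, Real.rpow_add hX0 ((1 : ℝ) / 100 + (19 / 20 + e)) (t * e),
            Real.rpow_add hX0 ((1 : ℝ) / 100) (19 / 20 + e)]
          ring
      _ ≤ C₂ * (4096 ^ t) ^ 96 * C₃ ^ t * (X : ℝ) ^ (1 - c / 2) :=
          mul_le_mul_of_nonneg_left h1 (by positivity)
  calc _ ≤ C₁ * C₃ ^ t * (X : ℝ) ^ (1 - c / 2) +
        C₂ * (4096 ^ t) ^ 96 * C₃ ^ t * (X : ℝ) ^ (1 - c / 2) := add_le_add hA hB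
    _ = _ := by ring

theorem st_FIN (hTL : ST_TL) (hGC : ST_GC) (hNP : ST_NP) (hNB : ST_NB) : ST_FIN := by
  classical
  intro m n hm hn hmn
  set t : ℕ := m + n with ht
  obtain ⟨c, hc⟩ : ∃ c : ℝ, c = 1 / (96000 * t) := ⟨_, rfl⟩
  obtain ⟨e, he⟩ : ∃ e : ℝ, e = c / (4 * (t + 2)) := ⟨_, rfl⟩
  have ht5 : (5 : ℝ) ≤ (t : ℝ) := by exact_mod_cast hmn
  have hc0 : 0 < c := by rw [hc]; positivity
  have he0 : 0 < e := by rw [he]; positivity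
  obtain ⟨C₁, hC₁, h₁⟩ := hTL e he0
  obtain ⟨C₂, hC₂, h₂⟩ := hNP e he0
  obtain ⟨C₃, hC₃, h₃⟩ := hNB e he0
  refine ⟨1 - c / 2, C₁ * C₃ ^ t + C₂ * (4096 ^ t) ^ 96 * C₃ ^ t, by linarith, ?_⟩
  intro X hX
  set W : Finset (Finset ℕ × Finset ℕ) :=
    ((Finset.Icc 1 X).powerset ×ˢ (Finset.Icc 1 X).powerset).filter (fun P => FinP m n X P)
    with hW
  have hset : {P : Finset ℕ × Finset ℕ | P.1.card = m ∧ P.2.card = n ∧
      (∀ a ∈ P.1, ∀ b ∈ P.2, IsSquare (a ^ 2 + b ^ 2)) ∧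
      (∀ x ∈ P.1 ∪ P.2, 1 ≤ x ∧ x ≤ X) ∧ (P.1 ∪ P.2).gcd id = 1} = (W : Set _) := by
    ext P
    rw [Finset.mem_coe, hW, Finset.mem_filter, Finset.mem_product, Finset.mem_powerset,
      Finset.mem_powerset]
    constructor
    · intro h
      refine ⟨⟨?_, ?_⟩, h⟩
      · intro x hx
        rw [Finset.mem_Icc]
        exact h.2.2.2.1 x (Finset.mem_union_left _ hx)
      · intro x hx
        rw [Finset.mem_Icc]
        exact h.2.2.2.1 x (Finset.mem_union_right _ hx)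
    · intro h
      exact h.2
  rw [hset, Set.ncard_coe_finset]
  refine ⟨Finset.finite_toSet W, ?_⟩
  obtain ⟨M, hM⟩ : ∃ M : ℕ, M = ⌈(X : ℝ) ^ c⌉₊ := ⟨_, rfl⟩
  have hM1 : 1 ≤ M := by
    rw [hM, Nat.one_le_ceil_iff]
    have : (1 : ℝ) ≤ (X : ℝ) := by exact_mod_cast hX
    positivity
  obtain ⟨K, hK⟩ : ∃ K : ℕ, K = min X ((4 * M ^ 10) ^ t) := ⟨_, rfl⟩
  have hKX : K ≤ X := by rw [hK]; exact min_le_left _ _
  have hKM : K ≤ (4 * M ^ 10) ^ t := by rw [hK]; exact min_le_right _ _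
  have hK1 : 1 ≤ K := by
    rw [hK, le_min_iff]
    exact ⟨hX, Nat.one_le_pow _ _ (by positivity)⟩
  have hL0 : (0 : ℝ) ≤ C₃ * (X : ℝ) ^ e := by positivity
  have hL : ∀ a, 1 ≤ a → a ≤ X → ((finNbr X a).card : ℝ) ≤ C₃ * (X : ℝ) ^ e := by
    intro a ha haX
    apply h₃ X hX a ha haX
    intro b hb
    unfold finNbr at hb
    rw [Finset.mem_filter, Finset.mem_Icc] at hb
    exact ⟨hb.1.1, hb.1.2, hb.2⟩
  have hWP : ∀ P ∈ W, FinP m n X P := by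
    intro P hP
    rw [hW, Finset.mem_filter] at hP
    exact hP.2
  -- rich pairs
  set W1 := W.filter (fun P => ∃ z, FinQ P z ∧ Rich M z.1 z.2.1 z.2.2.1 z.2.2.2) with hW1
  set W2 := W.filter (fun P => ¬ ∃ z, FinQ P z ∧ Rich M z.1 z.2.1 z.2.2.1 z.2.2.2) with hW2
  have hsum : W.card = W1.card + W2.card := by
    rw [hW1, hW2, Finset.card_filter_add_card_filter_not]
  have hch1 : ∀ P : Finset ℕ × Finset ℕ, ∃ z, P ∈ W1 →
      FinQ P z ∧ Rich M z.1 z.2.1 z.2.2.1 z.2.2.2 := by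
    intro P
    by_cases hP : P ∈ W1
    · rw [hW1, Finset.mem_filter] at hP
      obtain ⟨z, hz⟩ := hP.2
      exact ⟨z, fun _ => hz⟩
    · exact ⟨(0, 0, 0, 0), fun h => absurd h hP⟩
  choose q1 hq1 using hch1
  have hch2 : ∀ P : Finset ℕ × Finset ℕ, ∃ z, P ∈ W2 → FinQ P z := by
    intro P
    by_cases hP : P ∈ W2
    · rw [hW2, Finset.mem_filter] at hP
      obtain ⟨z, hz⟩ := fin_ex hm hn (hWP P hP.1)
      exact ⟨z, fun _ => hz⟩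
    · exact ⟨(0, 0, 0, 0), fun h => absurd h hP⟩
  choose q2 hq2 using hch2
  have hW1W : ∀ P ∈ W1, P ∈ W := fun P hP => (Finset.mem_filter.1 hP).1
  have hW2W : ∀ P ∈ W2, P ∈ W := fun P hP => (Finset.mem_filter.1 hP).1
  have hB1 : ((W1.image q1).card : ℝ) ≤ C₁ * (X : ℝ) ^ (1 + e) / (M : ℝ) := by
    apply h₁ X M hX hM1
    intro z hz
    obtain ⟨P, hP, rfl⟩ := Finset.mem_image.1 hz
    exact ⟨fin_quad (hWP P (hW1W P hP)) (hq1 P hP).1, (hq1 P hP).2⟩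
  have hB2 : ((W2.image q2).card : ℝ) ≤ C₂ * (K : ℝ) ^ 96 * (X : ℝ) ^ (19 / 20 + e) := by
    apply h₂ X K hX hK1 hKX
    intro z hz
    obtain ⟨P, hP, rfl⟩ := Finset.mem_image.1 hz
    have hPW := hWP P (hW2W P hP)
    have hzQ := hq2 P hP
    have hnr : ¬ ∃ z, FinQ P z ∧ Rich M z.1 z.2.1 z.2.2.1 z.2.2.2 := by
      rw [hW2, Finset.mem_filter] at hP
      exact hP.2
    have hgc : ∀ a ∈ P.1, ∀ b ∈ P.2, Nat.gcd a b ≤ K := by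
      intro a ha b hb
      have h5 := hGC P.1 P.2 X M hM1 (by rw [hPW.1]; exact hm) (by rw [hPW.2.1]; exact hn)
        (by rw [hPW.1, hPW.2.1]; exact hmn)
        (fun a ha => hPW.2.2.2.1 a (Finset.mem_union_left _ ha))
        (fun b hb => hPW.2.2.2.1 b (Finset.mem_union_right _ hb)) hPW.2.2.1 hPW.2.2.2.2
        (fun a ha a' ha' b hb b' hb' h1 h2 h3 =>
          hnr ⟨(a, a', b, b'), ⟨ha, ha', hb, hb', h1, h2⟩, h3⟩) a ha b hb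
      rw [hPW.1, hPW.2.1] at h5
      rw [hK, le_min_iff]
      refine ⟨?_, h5⟩
      have h6 := hPW.2.2.2.1 a (Finset.mem_union_left _ ha)
      exact (Nat.gcd_le_left b (by omega)).trans h6.2
    exact ⟨fin_quad hPW hzQ, hgc _ hzQ.1 _ hzQ.2.2.1, hgc _ hzQ.1 _ hzQ.2.2.2.1,
      hgc _ hzQ.2.1 _ hzQ.2.2.1, hgc _ hzQ.2.1 _ hzQ.2.2.2.1⟩
  have hc1 := fin_fib X m n _ hL0 hL W1 (fun P hP => hWP P (hW1W P hP)) q1
    (fun P hP => ⟨(hq1 P hP).1.1, (hq1 P hP).1.2.2.1⟩) _ hB1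
  have hc2 := fin_fib X m n _ hL0 hL W2 (fun P hP => hWP P (hW2W P hP)) q2
    (fun P hP => ⟨(hq2 P hP).1, (hq2 P hP).2.2.1⟩) _ hB2
  have hfin := fin_exp C₁ C₂ C₃ c e t hmn hC₁ hC₂ hC₃ hc he X M K hX hM hKM
  rw [hsum]
  push_cast
  exact (add_le_add hc1 hc2).trans hfin

end Pool.Agent.Helper89.TT
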