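import Pool.Agent.Helper89.TT.Stmts

set_option autoImplicit false

open Finset

namespace Pool.Agent.Helper89.TT

/-- all square-compatible pairs with `|A| = m`, `|B| = n`, elements at most `X`
(for `m = n = 2` the special ones with equal products are left out) -/
def Cmp (m n X : ℕ) : Finset (Finset ℕ × Finset ℕ) :=
  ((Finset.Icc 1 X).powersetCard m ×ˢ (Finset.Icc 1 X).powersetCard n).filter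
    (fun P => (∀ a ∈ P.1, ∀ b ∈ P.2, IsSquare (a ^ 2 + b ^ 2)) ∧
      (m + n = 4 → ∏ a ∈ P.1, a ≠ ∏ b ∈ P.2, b))

/-- the primitive ones -/
def Prm (m n X : ℕ) : Finset (Finset ℕ × Finset ℕ) :=
  (Cmp m n X).filter (fun P => (P.1 ∪ P.2).gcd id = 1)

/-- GC2: the case `m = n = 2` of GC -/
def ST_GC2 : Prop := ∀ (A B : Finset ℕ) (N M : ℕ), 1 ≤ M → A.card = 2 → B.card = 2 →
  ∏ a ∈ A, a ≠ ∏ b ∈ B, b → (∀ a ∈ A, 1 ≤ a ∧ a ≤ N) → (∀ b ∈ B, 1 ≤ b ∧ b ≤ N) →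
  (∀ a ∈ A, ∀ b ∈ B, IsSquare (a ^ 2 + b ^ 2)) → (A ∪ B).gcd id = 1 →
  (∀ a ∈ A, ∀ a' ∈ A, ∀ b ∈ B, ∀ b' ∈ B, a ≠ a' → b ≠ b' → ¬ Rich M a a' b b') →
  ∀ a ∈ A, ∀ b ∈ B, Nat.gcd a b ≤ (4 * M ^ 10) ^ (A.card + B.card)

/-- FIN3: the number of primitive pairs -/
def ST_FIN3 : Prop := ∀ m n : ℕ, 2 ≤ m → 2 ≤ n → ∃ C : ℝ, ∀ X : ℕ, 1 ≤ X →
  ((Prm m n X).card : ℝ) ≤ C * (X : ℝ) ^ (1 - 1 / (192000 * ((m : ℝ) + n)))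

/-- SCALE: every pair is a multiple of a primitive one -/
def ST_SCALE : Prop := ∀ m n X : ℕ, 2 ≤ m → 2 ≤ n →
  (Cmp m n X).card = ∑ g ∈ Finset.Icc 1 X, (Prm m n (X / g)).card

/-- TAUB: from the primitive count to an asymptotic formula -/
def ST_TAUB : Prop := ∀ (P : ℕ → ℕ) (C θ : ℝ), Monotone P → P 0 = 0 → 0 < θ → θ < 1 →
  (∀ X : ℕ, 1 ≤ X → (P X : ℝ) ≤ C * (X : ℝ) ^ θ) →
  ∃ c C' : ℝ, 0 ≤ c ∧ (0 < c ↔ ∃ Y, 0 < P Y) ∧ ∀ X : ℕ, 1 ≤ X →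
    |(∑ g ∈ Finset.Icc 1 X, (P (X / g) : ℝ)) - c * X| ≤ C' * (X : ℝ) ^ θ

/-- ALL: the final statement -/
def ST_ALL : Prop := ∀ m n : ℕ, 2 ≤ m → 2 ≤ n → ∃ c C : ℝ, 0 ≤ c ∧
  (0 < c ↔ ∃ X, (Cmp m n X).Nonempty) ∧ ∀ X : ℕ, 1 ≤ X →
    ((Prm m n X).card : ℝ) ≤ C * (X : ℝ) ^ (1 - 1 / (192000 * ((m : ℝ) + n))) ∧
    |((Cmp m n X).card : ℝ) - c * X| ≤ C * (X : ℝ) ^ (1 - 1 / (192000 * ((m : ℝ) + n)))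

end Pool.Agent.Helper89.TT
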