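import Pool.Agent.Helper89.TT.FIN
import Pool.Agent.Helper89.TT.Stmts3

set_option autoImplicit false

open Finset

namespace Pool.Agent.Helper89.TT

/-- the exponents -/
theorem fin3_exp (C₁ C₂ C₃ c e : ℝ) (t : ℕ) (ht : 4 ≤ t) (hC₁ : 1 ≤ C₁) (hC₂ : 1 ≤ C₂)
    (hC₃ : 1 ≤ C₃) (hc : c = 1 / (96000 * t)) (he : e = c / (4 * (t + 2))) (X M K : ℕ)
    (hX : 1 ≤ X) (hM : M = ⌈(X : ℝ) ^ c⌉₊) (hK : K ≤ (4 * M ^ 10) ^ t) :
    C₁ * (X : ℝ) ^ (1 + e) / (M : ℝ) * (C₃ * (X : ℝ) ^ e) ^ t +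
      C₂ * (K : ℝ) ^ 96 * (X : ℝ) ^ (19 / 20 + e) * (C₃ * (X : ℝ) ^ e) ^ t ≤
      (C₁ * C₃ ^ t + C₂ * (4096 ^ t) ^ 96 * C₃ ^ t) * (X : ℝ) ^ (1 - c / 2) := by
  have hX1 : (1 : ℝ) ≤ (X : ℝ) := by exact_mod_cast hX
  have hX0 : (0 : ℝ) < (X : ℝ) := by linarith
  have ht' : (4 : ℝ) ≤ (t : ℝ) := by exact_mod_cast ht
  have hc0 : 0 < c := by rw [hc]; positivity
  have he0 : 0 < e := by rw [he]; positivity
  have hXc1 : (1 : ℝ) ≤ (X : ℝ) ^ c := Real.one_le_rpow hX1 hc0.le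
  have hM1 : (X : ℝ) ^ c ≤ (M : ℝ) := by rw [hM]; exact Nat.le_ceil _
  have hM2 : (M : ℝ) ≤ 2 * (X : ℝ) ^ c := by
    have := Nat.ceil_lt_add_one (show (0 : ℝ) ≤ (X : ℝ) ^ c by positivity)
    rw [← hM] at this
    linarith
  have hM0 : (0 : ℝ) < (M : ℝ) := by linarith
  have hte : (t + 1) * e ≤ c / 2 := by
    rw [he]
    rw [mul_div_assoc', div_le_div_iff₀ (by positivity) (by norm_num)]
    nlinarith
  have htc : (t : ℝ) * (960 * c) = 1 / 100 := by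
    rw [hc]; field_simp; norm_num
  have hpow : (C₃ * (X : ℝ) ^ e) ^ t = C₃ ^ t * (X : ℝ) ^ (t * e) := by
    rw [mul_pow, ← Real.rpow_natCast ((X : ℝ) ^ e) t, ← Real.rpow_mul hX0.le, mul_comm e]
  have hA : C₁ * (X : ℝ) ^ (1 + e) / (M : ℝ) * (C₃ * (X : ℝ) ^ e) ^ t ≤
      C₁ * C₃ ^ t * (X : ℝ) ^ (1 - c / 2) := by
    have h1 : C₁ * (X : ℝ) ^ (1 + e) / (M : ℝ) ≤ C₁ * (X : ℝ) ^ (1 + e) / (X : ℝ) ^ c :=
      div_le_div_of_nonneg_left (by positivity) (by positivity) hM1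
    have h2 : C₁ * (X : ℝ) ^ (1 + e) / (X : ℝ) ^ c * (C₃ * (X : ℝ) ^ e) ^ t =
        C₁ * C₃ ^ t * (X : ℝ) ^ (1 + e - c + t * e) := by
      rw [hpow, Real.rpow_add hX0 (1 + e - c) (t * e), Real.rpow_sub hX0 (1 + e) c]
      ring
    have h3 : (X : ℝ) ^ (1 + e - c + t * e) ≤ (X : ℝ) ^ (1 - c / 2) :=
      Real.rpow_le_rpow_of_exponent_le hX1 (by nlinarith)
    calc C₁ * (X : ℝ) ^ (1 + e) / (M : ℝ) * (C₃ * (X : ℝ) ^ e) ^ t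
        ≤ C₁ * (X : ℝ) ^ (1 + e) / (X : ℝ) ^ c * (C₃ * (X : ℝ) ^ e) ^ t :=
          mul_le_mul_of_nonneg_right h1 (by positivity)
      _ = C₁ * C₃ ^ t * (X : ℝ) ^ (1 + e - c + t * e) := h2
      _ ≤ C₁ * C₃ ^ t * (X : ℝ) ^ (1 - c / 2) := mul_le_mul_of_nonneg_left h3 (by positivity)
  have hKb : (K : ℝ) ^ 96 ≤ (4096 ^ t) ^ 96 * (X : ℝ) ^ ((1 : ℝ) / 100) := by
    have h1 : (K : ℝ) ≤ (4 * (M : ℝ) ^ 10) ^ t := by exact_mod_cast hK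
    have h2 : 4 * (M : ℝ) ^ 10 ≤ 4096 * ((X : ℝ) ^ c) ^ 10 := by
      have h3 : (M : ℝ) ^ 10 ≤ (2 * (X : ℝ) ^ c) ^ 10 := pow_le_pow_left₀ hM0.le hM2 10
      have h4 : (2 * (X : ℝ) ^ c) ^ 10 = 1024 * ((X : ℝ) ^ c) ^ 10 := by ring
      rw [h4] at h3
      linarith
    have h5 : (K : ℝ) ≤ (4096 * ((X : ℝ) ^ c) ^ 10) ^ t :=
      h1.trans (pow_le_pow_left₀ (by positivity) h2 t)
    have h6 : (K : ℝ) ^ 96 ≤ ((4096 * ((X : ℝ) ^ c) ^ 10) ^ t) ^ 96 :=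
      pow_le_pow_left₀ (by positivity) h5 96
    refine h6.trans (le_of_eq ?_)
    rw [mul_pow, mul_pow]
    congr 1
    rw [← pow_mul, ← pow_mul, ← Real.rpow_natCast ((X : ℝ) ^ c), ← Real.rpow_mul hX0.le]
    congr 1
    rw [← htc]
    push_cast
    ring
  have hB : C₂ * (K : ℝ) ^ 96 * (X : ℝ) ^ (19 / 20 + e) * (C₃ * (X : ℝ) ^ e) ^ t ≤
      C₂ * (4096 ^ t) ^ 96 * C₃ ^ t * (X : ℝ) ^ (1 - c / 2) := by
    have hc1 : c ≤ 1 / 384000 := by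
      rw [hc]
      apply one_div_le_one_div_of_le (by norm_num)
      linarith
    have h1 : (X : ℝ) ^ ((1 : ℝ) / 100 + (19 / 20 + e) + t * e) ≤ (X : ℝ) ^ (1 - c / 2) :=
      Real.rpow_le_rpow_of_exponent_le hX1 (by nlinarith)
    calc C₂ * (K : ℝ) ^ 96 * (X : ℝ) ^ (19 / 20 + e) * (C₃ * (X : ℝ) ^ e) ^ t
        ≤ C₂ * ((4096 ^ t) ^ 96 * (X : ℝ) ^ ((1 : ℝ) / 100)) * (X : ℝ) ^ (19 / 20 + e) *
          (C₃ * (X : ℝ) ^ e) ^ t := by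
          apply mul_le_mul_of_nonneg_right _ (by positivity)
          apply mul_le_mul_of_nonneg_right _ (by positivity)
          exact mul_le_mul_of_nonneg_left hKb (by linarith)
      _ = C₂ * (4096 ^ t) ^ 96 * C₃ ^ t *
          (X : ℝ) ^ ((1 : ℝ) / 100 + (19 / 20 + e) + t * e) := by
          rw [hpow, Real.rpow_add hX0 ((1 : ℝ) / 100 + (19 / 20 + e)) (t * e),
            Real.rpow_add hX0 ((1 : ℝ) / 100) (19 / 20 + e)]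
          ring
      _ ≤ C₂ * (4096 ^ t) ^ 96 * C₃ ^ t * (X : ℝ) ^ (1 - c / 2) :=
          mul_le_mul_of_nonneg_left h1 (by positivity)
  calc _ ≤ C₁ * C₃ ^ t * (X : ℝ) ^ (1 - c / 2) +
        C₂ * (4096 ^ t) ^ 96 * C₃ ^ t * (X : ℝ) ^ (1 - c / 2) := add_le_add hA hB
    _ = _ := by ring

theorem fin3_P {m n X : ℕ} {P : Finset ℕ × Finset ℕ} (hP : P ∈ Prm m n X) : FinP m n X P := by
  unfold Prm Cmp at hP
  rw [Finset.mem_filter, Finset.mem_filter, Finset.mem_product, Finset.mem_powersetCard,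
    Finset.mem_powersetCard] at hP
  obtain ⟨⟨⟨h1, h2⟩, h3, _⟩, h4⟩ := hP
  refine ⟨h1.2, h2.2, h3, ?_, h4⟩
  intro x hx
  rw [Finset.mem_union] at hx
  rw [← Finset.mem_Icc]
  rcases hx with hx | hx
  · exact h1.1 hx
  · exact h2.1 hx

theorem fin3_prod {m n X : ℕ} {P : Finset ℕ × Finset ℕ} (hP : P ∈ Prm m n X) (hmn : m + n = 4) :
    ∏ a ∈ P.1, a ≠ ∏ b ∈ P.2, b := by
  unfold Prm Cmp at hP
  rw [Finset.mem_filter, Finset.mem_filter] at hP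
  exact hP.1.2.2 hmn

theorem st_FIN3 (hTL : ST_TL) (hGC : ST_GC) (hGC2 : ST_GC2) (hNP : ST_NP) (hNB : ST_NB) :
    ST_FIN3 := by
  classical
  intro m n hm hn
  set t : ℕ := m + n with ht
  obtain ⟨c, hc⟩ : ∃ c : ℝ, c = 1 / (96000 * t) := ⟨_, rfl⟩
  obtain ⟨e, he⟩ : ∃ e : ℝ, e = c / (4 * (t + 2)) := ⟨_, rfl⟩
  have hmn : 4 ≤ t := by omega
  have ht5 : (4 : ℝ) ≤ (t : ℝ) := by exact_mod_cast hmn
  have hc0 : 0 < c := by rw [hc]; positivity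
  have he0 : 0 < e := by rw [he]; positivity
  obtain ⟨C₁, hC₁, h₁⟩ := hTL e he0
  obtain ⟨C₂, hC₂, h₂⟩ := hNP e he0
  obtain ⟨C₃, hC₃, h₃⟩ := hNB e he0
  have hcc : 1 - 1 / (192000 * ((m : ℝ) + n)) = 1 - c / 2 := by
    rw [hc, ht]
    push_cast
    field_simp
    ring
  refine ⟨C₁ * C₃ ^ t + C₂ * (4096 ^ t) ^ 96 * C₃ ^ t, ?_⟩
  intro X hX
  rw [hcc]
  set W : Finset (Finset ℕ × Finset ℕ) := Prm m n X with hW
  obtain ⟨M, hM⟩ : ∃ M : ℕ, M = ⌈(X : ℝ) ^ c⌉₊ := ⟨_, rfl⟩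
  have hM1 : 1 ≤ M := by
    rw [hM, Nat.one_le_ceil_iff]
    have : (1 : ℝ) ≤ (X : ℝ) := by exact_mod_cast hX
    positivity
  obtain ⟨K, hK⟩ : ∃ K : ℕ, K = min X ((4 * M ^ 10) ^ t) := ⟨_, rfl⟩
  have hKX : K ≤ X := by rw [hK]; exact min_le_left _ _
  have hKM : K ≤ (4 * M ^ 10) ^ t := by rw [hK]; exact min_le_right _ _
  have hK1 : 1 ≤ K := by
    rw [hK, le_min_iff]
    exact ⟨hX, Nat.one_le_pow _ _ (by positivity)⟩
  have hL0 : (0 : ℝ) ≤ C₃ * (X : ℝ) ^ e := by positivity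
  have hL : ∀ a, 1 ≤ a → a ≤ X → ((finNbr X a).card : ℝ) ≤ C₃ * (X : ℝ) ^ e := by
    intro a ha haX
    apply h₃ X hX a ha haX
    intro b hb
    unfold finNbr at hb
    rw [Finset.mem_filter, Finset.mem_Icc] at hb
    exact ⟨hb.1.1, hb.1.2, hb.2⟩
  have hWP : ∀ P ∈ W, FinP m n X P := fun P hP => fin3_P hP
  -- rich pairs
  set W1 := W.filter (fun P => ∃ z, FinQ P z ∧ Rich M z.1 z.2.1 z.2.2.1 z.2.2.2) with hW1
  set W2 := W.filter (fun P => ¬ ∃ z, FinQ P z ∧ Rich M z.1 z.2.1 z.2.2.1 z.2.2.2) with hW2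
  have hsum : W.card = W1.card + W2.card := by
    rw [hW1, hW2, Finset.card_filter_add_card_filter_not]
  have hch1 : ∀ P : Finset ℕ × Finset ℕ, ∃ z, P ∈ W1 →
      FinQ P z ∧ Rich M z.1 z.2.1 z.2.2.1 z.2.2.2 := by
    intro P
    by_cases hP : P ∈ W1
    · rw [hW1, Finset.mem_filter] at hP
      obtain ⟨z, hz⟩ := hP.2
      exact ⟨z, fun _ => hz⟩
    · exact ⟨(0, 0, 0, 0), fun h => absurd h hP⟩
  choose q1 hq1 using hch1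
  have hch2 : ∀ P : Finset ℕ × Finset ℕ, ∃ z, P ∈ W2 → FinQ P z := by
    intro P
    by_cases hP : P ∈ W2
    · rw [hW2, Finset.mem_filter] at hP
      obtain ⟨z, hz⟩ := fin_ex hm hn (hWP P hP.1)
      exact ⟨z, fun _ => hz⟩
    · exact ⟨(0, 0, 0, 0), fun h => absurd h hP⟩
  choose q2 hq2 using hch2
  have hW1W : ∀ P ∈ W1, P ∈ W := fun P hP => (Finset.mem_filter.1 hP).1
  have hW2W : ∀ P ∈ W2, P ∈ W := fun P hP => (Finset.mem_filter.1 hP).1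
  have hB1 : ((W1.image q1).card : ℝ) ≤ C₁ * (X : ℝ) ^ (1 + e) / (M : ℝ) := by
    apply h₁ X M hX hM1
    intro z hz
    obtain ⟨P, hP, rfl⟩ := Finset.mem_image.1 hz
    exact ⟨fin_quad (hWP P (hW1W P hP)) (hq1 P hP).1, (hq1 P hP).2⟩
  have hB2 : ((W2.image q2).card : ℝ) ≤ C₂ * (K : ℝ) ^ 96 * (X : ℝ) ^ (19 / 20 + e) := by
    apply h₂ X K hX hK1 hKX
    intro z hz
    obtain ⟨P, hP, rfl⟩ := Finset.mem_image.1 hz
    have hPW := hWP P (hW2W P hP)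
    have hzQ := hq2 P hP
    have hnr : ¬ ∃ z, FinQ P z ∧ Rich M z.1 z.2.1 z.2.2.1 z.2.2.2 := by
      rw [hW2, Finset.mem_filter] at hP
      exact hP.2
    have hgc : ∀ a ∈ P.1, ∀ b ∈ P.2, Nat.gcd a b ≤ K := by
      intro a ha b hb
      have h5 : Nat.gcd a b ≤ (4 * M ^ 10) ^ (P.1.card + P.2.card) := by
        rcases Nat.lt_or_ge 4 t with h45 | h45
        · exact hGC P.1 P.2 X M hM1 (by rw [hPW.1]; exact hm) (by rw [hPW.2.1]; exact hn)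
            (by rw [hPW.1, hPW.2.1]; omega)
            (fun a ha => hPW.2.2.2.1 a (Finset.mem_union_left _ ha))
            (fun b hb => hPW.2.2.2.1 b (Finset.mem_union_right _ hb)) hPW.2.2.1 hPW.2.2.2.2
            (fun a ha a' ha' b hb b' hb' h1 h2 h3 =>
              hnr ⟨(a, a', b, b'), ⟨ha, ha', hb, hb', h1, h2⟩, h3⟩) a ha b hb
        · exact hGC2 P.1 P.2 X M hM1 (by rw [hPW.1]; omega) (by rw [hPW.2.1]; omega)
            (fin3_prod (hW2W P hP) (by omega))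
            (fun a ha => hPW.2.2.2.1 a (Finset.mem_union_left _ ha))
            (fun b hb => hPW.2.2.2.1 b (Finset.mem_union_right _ hb)) hPW.2.2.1 hPW.2.2.2.2
            (fun a ha a' ha' b hb b' hb' h1 h2 h3 =>
              hnr ⟨(a, a', b, b'), ⟨ha, ha', hb, hb', h1, h2⟩, h3⟩) a ha b hb
      rw [hPW.1, hPW.2.1] at h5
      rw [hK, le_min_iff]
      refine ⟨?_, h5⟩
      have h6 := hPW.2.2.2.1 a (Finset.mem_union_left _ ha)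
      exact (Nat.gcd_le_left b (by omega)).trans h6.2
    exact ⟨fin_quad hPW hzQ, hgc _ hzQ.1 _ hzQ.2.2.1, hgc _ hzQ.1 _ hzQ.2.2.2.1,
      hgc _ hzQ.2.1 _ hzQ.2.2.1, hgc _ hzQ.2.1 _ hzQ.2.2.2.1⟩
  have hc1 := fin_fib X m n _ hL0 hL W1 (fun P hP => hWP P (hW1W P hP)) q1
    (fun P hP => ⟨(hq1 P hP).1.1, (hq1 P hP).1.2.2.1⟩) _ hB1
  have hc2 := fin_fib X m n _ hL0 hL W2 (fun P hP => hWP P (hW2W P hP)) q2
    (fun P hP => ⟨(hq2 P hP).1, (hq2 P hP).2.2.1⟩) _ hB2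
  have hfin := fin3_exp C₁ C₂ C₃ c e t hmn hC₁ hC₂ hC₃ hc he X M K hX hM hKM
  rw [hsum]
  push_cast
  exact (add_le_add hc1 hc2).trans hfin

end Pool.Agent.Helper89.TT
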