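import Pool.Agent.Helper89.TT.Stmts

set_option autoImplicit false

namespace Pool.Agent.Helper89.TT

theorem st_LP : ST_LP := by
  intro a a' b b' g g' d d' n l c ha ha' hb hb' hg hg' hd hd' hn hl hc h1 h2 h3 h4 h5 h6 h7 h8 h9 h10
  by_contra hcon
  simp only [not_or, not_le] at hcon
  obtain ⟨e1, e2, e3, e4⟩ := hcon
  rcases max_cases (0 : ℝ) (g' - a) with ⟨m1, m1'⟩ | ⟨m1, m1'⟩ <;>
  rcases max_cases (0 : ℝ) (d - b') with ⟨m2, m2'⟩ | ⟨m2, m2'⟩ <;>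
  rcases max_cases (0 : ℝ) (b' - a) with ⟨m3, m3'⟩ | ⟨m3, m3'⟩ <;>
  rcases max_cases (0 : ℝ) (d - g') with ⟨m4, m4'⟩ | ⟨m4, m4'⟩ <;>
  rw [m1, m2] at e1 <;> rw [m3, m4] at e2 <;> linarith

end Pool.Agent.Helper89.TT
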