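import Pool.Agent.Helper89.TT.DV
import Pool.Agent.Helper89.TT.CONI
import Pool.Agent.Helper89.TT.LP
import Pool.Agent.Helper89.TT.FIN3
import Pool.Agent.Helper89.TT.ALL
import Pool.Agent.Helper76.TT.EP
import Pool.Agent.Helper97.TT.NB
import Pool.Agent.Helper24.TT.SIDE
import Pool.Agent.Helper13.TT.SC
import Pool.Agent.Helper20.TT.TL
import Pool.Agent.Helper58.TT.GC1
import Pool.Agent.Helper58.TT.GC
import Pool.Agent.Helper58.TT.GC2
import Pool.Agent.Helper13.TT.SQ1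
import Pool.Agent.Helper58.TT.SQ2
import Pool.Agent.Helper13.TT.TUP
import Pool.Agent.Helper45.TT.DIFF
import Pool.Agent.Helper12.TT.LLA
import Pool.Agent.Helper4.TT.LL
import Pool.Agent.Helper28.TT.CC
import Pool.Agent.Helper47.TT.XY
import Pool.Agent.Helper94.TT.ND
import Pool.Agent.Helper94.TT.SYM
import Pool.Agent.Helper47.TT.B1
import Pool.Agent.Helper94.TT.B3
import Pool.Agent.Helper94.TT.B4
import Pool.Agent.Helper49.TT.BOX
import Pool.Agent.Helper58.TT.NP
import Pool.Agent.Helper5.TT.SCALE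
import Pool.Agent.Helper73.TT.TAUB

set_option autoImplicit false

namespace Pool.Agent.Helper89.TT

theorem final : ST_ALL := by
  have hSQ2 : ST_SQ2 := st_SQ2 st_EP st_SQ1
  have hNB : ST_NB := st_NB st_DV
  have hTL : ST_TL := st_TL st_SIDE (st_SC st_DV) hNB st_CON
  have hGC1 : ST_GC1 := st_GC1 st_EP
  have hCC : ST_CC := st_CC st_CON
  have hB1 : ST_B1 := st_B1 (st_XY st_DV) (st_LL st_DV st_LLA)
  have hBOX : ST_BOX := st_BOX hB1 (st_B3 st_ND hCC) (st_B4 st_ND hCC) st_SYM st_LP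
  have hNP : ST_NP := st_NP (st_TUP hSQ2) hBOX (st_DIFF hSQ2 st_DV st_CON) hNB
  exact st_ALL (st_FIN3 hTL (st_GC hGC1) (st_GC2 hGC1) hNP hNB) st_SCALE st_TAUB

end Pool.Agent.Helper89.TT
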