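import Mathlib

set_option autoImplicit false

open Finset

namespace Pool.Agent.Helper89.TT

/-- parametrization of a pair `(a,b)` with `a² + b²` a square: `a = k u v`, `2 b = k (v² - u²)` -/
def Par (a b k u v : ℕ) : Prop :=
  a = k * u * v ∧ 2 * b + k * u ^ 2 = k * v ^ 2 ∧ Nat.Coprime u v ∧ 0 < k ∧ 0 < u ∧ 0 < v

/-- EP: every pair has a parametrization -/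
def ST_EP : Prop := ∀ a b : ℕ, 0 < a → 0 < b → IsSquare (a ^ 2 + b ^ 2) →
  ∃ k u v : ℕ, Par a b k u v ∧ Nat.gcd a b ∣ k ∧ k ∣ 2 * Nat.gcd a b

/-- DV: divisor bound -/
def ST_DV : Prop := ∀ ε : ℝ, 0 < ε → ∀ j : ℕ, ∃ C : ℝ, 1 ≤ C ∧ ∀ N : ℕ, 1 ≤ N →
  ∀ n : ℕ, 1 ≤ n → n ≤ j * N ^ j → (n.divisors.card : ℝ) ≤ C * (N : ℝ) ^ ε

/-- NB: few neighbours -/
def ST_NB : Prop := ∀ ε : ℝ, 0 < ε → ∃ C : ℝ, 1 ≤ C ∧ ∀ N : ℕ, 1 ≤ N → ∀ a : ℕ, 1 ≤ a → a ≤ N →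
  ∀ S : Finset ℕ, (∀ b ∈ S, 1 ≤ b ∧ b ≤ N ∧ IsSquare (a ^ 2 + b ^ 2)) →
  (S.card : ℝ) ≤ C * (N : ℝ) ^ ε

/-- CON: few integral points on a conic `y² = a x² + b x + c` -/
def ST_CON : Prop := ∀ ε : ℝ, 0 < ε → ∀ j : ℕ, ∃ D : ℝ, 1 ≤ D ∧ ∀ N : ℕ, 1 ≤ N → ∀ a b c : ℤ,
  |a| ≤ j * (N : ℤ) ^ j → |b| ≤ j * (N : ℤ) ^ j → |c| ≤ j * (N : ℤ) ^ j → a ≠ 0 →
  b ^ 2 - 4 * a * c ≠ 0 →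
  ∀ S : Finset ℕ, (∀ x ∈ S, x ≤ j * N ^ j ∧ IsSquare (a * (x : ℤ) ^ 2 + b * (x : ℤ) + c)) →
  (S.card : ℝ) ≤ D * (N : ℝ) ^ ε

/-- the quadruples `(a, a', b, b')` -/
def Quad (N a a' b b' : ℕ) : Prop :=
  1 ≤ a ∧ a ≤ N ∧ 1 ≤ a' ∧ a' ≤ N ∧ 1 ≤ b ∧ b ≤ N ∧ 1 ≤ b' ∧ b' ≤ N ∧ a ≠ a' ∧ b ≠ b' ∧
  IsSquare (a ^ 2 + b ^ 2) ∧ IsSquare (a ^ 2 + b' ^ 2) ∧ IsSquare (a' ^ 2 + b ^ 2) ∧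
  IsSquare (a' ^ 2 + b' ^ 2)

/-- a large divisor of `gcd a b` in a non-scaling position -/
def Rich (M a a' b b' : ℕ) : Prop := ∃ k u v k' u' v' T : ℕ,
  Par a b' k u v ∧ Par b a' k' u' v' ∧ M ≤ T ∧
  ((T ∣ k ∧ (T ∣ u' ∨ T ∣ v')) ∨ ((T ∣ u ∨ T ∣ v) ∧ T ∣ k') ∨
   (a * a' ≠ b * b' ∧ (T ∣ u ∨ T ∣ v) ∧ (T ∣ u' ∨ T ∣ v')))

/-- the polynomial `4 b'² = A T⁴ + B T² + C` when `a = T x` -/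
def Side (x : ℕ) (A B C : ℤ) : Prop := ∃ k u v : ℕ, k * u * v = x ∧ 0 < k ∧ 0 < u ∧ 0 < v ∧
  ((A = 0 ∧ B = ((k : ℤ) * ((v : ℤ) ^ 2 - (u : ℤ) ^ 2)) ^ 2 ∧ C = 0) ∨
   (A = ((k : ℤ) * (u : ℤ) ^ 2) ^ 2 ∧ B = -2 * ((k : ℤ) * (u : ℤ) ^ 2) * ((k : ℤ) * (v : ℤ) ^ 2) ∧
     C = ((k : ℤ) * (v : ℤ) ^ 2) ^ 2) ∨
   (A = ((k : ℤ) * (v : ℤ) ^ 2) ^ 2 ∧ B = -2 * ((k : ℤ) * (u : ℤ) ^ 2) * ((k : ℤ) * (v : ℤ) ^ 2) ∧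
     C = ((k : ℤ) * (u : ℤ) ^ 2) ^ 2))

/-- SIDE: algebra of the rich quadruples -/
def ST_SIDE : Prop := ∀ N M a a' b b' : ℕ, 1 ≤ M → Quad N a a' b b' → Rich M a a' b b' →
  ∃ T x y : ℕ, ∃ A B C A' B' C' : ℤ, M ≤ T ∧ a = T * x ∧ b = T * y ∧
    IsSquare (x ^ 2 + y ^ 2) ∧ Side x A B C ∧ Side y A' B' C' ∧
    4 * (b' : ℤ) ^ 2 = A * (T : ℤ) ^ 4 + B * (T : ℤ) ^ 2 + C ∧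
    4 * (a' : ℤ) ^ 2 = A' * (T : ℤ) ^ 4 + B' * (T : ℤ) ^ 2 + C' ∧
    A + A' ≠ 0 ∧ (B + B') ^ 2 - 4 * (A + A') * (C + C') ≠ 0

/-- SC: few sides, small coefficients -/
def ST_SC : Prop := (∀ ε : ℝ, 0 < ε → ∃ C : ℝ, 1 ≤ C ∧ ∀ N : ℕ, 1 ≤ N → ∀ x : ℕ, 1 ≤ x → x ≤ N →
    ∀ S : Finset (ℤ × ℤ × ℤ), (∀ s ∈ S, Side x s.1 s.2.1 s.2.2) →
    (S.card : ℝ) ≤ C * (N : ℝ) ^ ε) ∧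
  (∀ (x : ℕ) (A B C : ℤ), Side x A B C →
    |A| ≤ (x : ℤ) ^ 4 ∧ |B| ≤ 2 * (x : ℤ) ^ 4 ∧ |C| ≤ (x : ℤ) ^ 4)

/-- TL: rich quadruples are few -/
def ST_TL : Prop := ∀ ε : ℝ, 0 < ε → ∃ C : ℝ, 1 ≤ C ∧ ∀ N M : ℕ, 1 ≤ N → 1 ≤ M →
  ∀ S : Finset (ℕ × ℕ × ℕ × ℕ),
  (∀ q ∈ S, Quad N q.1 q.2.1 q.2.2.1 q.2.2.2 ∧ Rich M q.1 q.2.1 q.2.2.1 q.2.2.2) →
  (S.card : ℝ) ≤ C * (N : ℝ) ^ (1 + ε) / (M : ℝ)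

/-- GC1: gcd inequalities in a quadruple that is not rich -/
def ST_GC1 : Prop := ∀ N M a a' b b' : ℕ, 1 ≤ M → Quad N a a' b b' → ¬ Rich M a a' b b' →
  (a * a' ≠ b * b' → Nat.gcd a b ≤ 2 * M ^ 8 * Nat.gcd (Nat.gcd a b) (Nat.gcd a' b')) ∧
  Nat.gcd (Nat.gcd a b) b' ≤ 2 * M ^ 2 * Nat.gcd (Nat.gcd a b) (Nat.gcd a' b') ∧
  Nat.gcd (Nat.gcd a b) a' ≤ 2 * M ^ 2 * Nat.gcd (Nat.gcd a b) (Nat.gcd a' b')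

/-- GC: small pairwise gcds -/
def ST_GC : Prop := ∀ (A B : Finset ℕ) (N M : ℕ), 1 ≤ M → 2 ≤ A.card → 2 ≤ B.card →
  5 ≤ A.card + B.card → (∀ a ∈ A, 1 ≤ a ∧ a ≤ N) → (∀ b ∈ B, 1 ≤ b ∧ b ≤ N) →
  (∀ a ∈ A, ∀ b ∈ B, IsSquare (a ^ 2 + b ^ 2)) → (A ∪ B).gcd id = 1 →
  (∀ a ∈ A, ∀ a' ∈ A, ∀ b ∈ B, ∀ b' ∈ B, a ≠ a' → b ≠ b' → ¬ Rich M a a' b b') →
  ∀ a ∈ A, ∀ b ∈ B, Nat.gcd a b ≤ (4 * M ^ 10) ^ (A.card + B.card)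

/-- `x` is a square up to a factor `≤ S` -/
def SS (S x : ℕ) : Prop := ∃ s P : ℕ, 1 ≤ s ∧ s ≤ S ∧ x = s * P ^ 2

/-- SQ1 -/
def ST_SQ1 : Prop := ∀ x y K G : ℕ, 0 < x → 0 < y → 0 < K → IsSquare (x * y * K) →
  Nat.gcd x y ≤ G → SS (K * G) x

/-- the shape of a pair `b₂ < b₁` of neighbours of one number -/
def KD (K m l h h' : ℕ) : Prop := 0 < m ∧ m < l ∧ 0 < h' ∧ h' < h ∧ Nat.Coprime m l ∧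
  Nat.gcd h h' ≤ 2 * K ∧ SS (16 * K ^ 3) (l + m) ∧ SS (16 * K ^ 3) (l - m) ∧
  SS (16 * K ^ 3) (h + h') ∧ SS (16 * K ^ 3) (h - h')

/-- SQ2 -/
def ST_SQ2 : Prop := ∀ K a b₁ b₂ c₁ c₂ : ℕ, 0 < a → 0 < b₂ → b₂ < b₁ →
  a ^ 2 + b₁ ^ 2 = c₁ ^ 2 → a ^ 2 + b₂ ^ 2 = c₂ ^ 2 → Nat.gcd a b₁ ≤ K → Nat.gcd a b₂ ≤ K →
  ∃ m l h h' : ℕ, KD K m l h h' ∧ b₁ + b₂ = m * h ∧ b₁ = b₂ + l * h' ∧ c₁ + c₂ = l * h ∧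
    c₁ = c₂ + m * h'

/-- the 8-tuples: `a a'` for `α α'`, `b b'` for `β β'`, `g g'` for `γ γ'`, `d d'` for `δ δ'` -/
def Tup (S G N Y a a' b b' g g' d d' : ℕ) : Prop :=
  0 < a ∧ 0 < b ∧ 0 < g ∧ 0 < d' ∧
  Nat.Coprime (a * b) (a' * b') ∧ Nat.Coprime (a * g) (a' * g') ∧
  Nat.Coprime b g ∧ Nat.Coprime b' g' ∧
  a * b < a' * b' ∧ a * g < a' * g' ∧ g' * d' < g * d ∧ b' * d' < b * d ∧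
  SS S (a' * b' + a * b) ∧ SS S (a' * b' - a * b) ∧
  SS S (a' * g' + a * g) ∧ SS S (a' * g' - a * g) ∧
  SS S (g * d + g' * d') ∧ SS S (g * d - g' * d') ∧
  SS S (b * d + b' * d') ∧ SS S (b * d - b' * d') ∧
  Nat.gcd (g * d) (g' * d') ≤ G ∧ Nat.gcd (b * d) (b' * d') ≤ G ∧
  a' * b' * (g * d) ≤ 3 * N ∧ a' * g' * (b * d) ≤ 3 * N ∧
  a' * b' * (g * d) ≠ a' * g' * (b * d) ∧ Y ≤ a' * b' * (g' * d') ∧ Y ≤ a * b * (g * d)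

/-- TUP: the 8-tuple of a quadruple with small gcds -/
def ST_TUP : Prop := ∀ N K Y x x' y₁ y₂ : ℕ, Quad N x x' y₁ y₂ → y₂ < y₁ → y₂ + Y ≤ y₁ →
  Nat.gcd x y₁ ≤ K → Nat.gcd x y₂ ≤ K → Nat.gcd x' y₁ ≤ K → Nat.gcd x' y₂ ≤ K →
  ∃ a a' b b' g g' d d' : ℕ, Tup (16 * K ^ 3) (2 * K) N Y a a' b b' g g' d d' ∧
    y₁ + y₂ = a * b * (g * d) ∧ y₁ = y₂ + a' * b' * (g' * d') ∧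
    4 * x ^ 2 + (a * b * (g * d)) ^ 2 + (a' * b' * (g' * d')) ^ 2 =
      (a' * b' * (g * d)) ^ 2 + (a * b * (g' * d')) ^ 2 ∧
    4 * x' ^ 2 + (a * b * (g * d)) ^ 2 + (a' * b' * (g' * d')) ^ 2 =
      (a' * g' * (b * d)) ^ 2 + (a * g * (b' * d')) ^ 2

/-- DIFF: few pairs of neighbours that are close to each other -/
def ST_DIFF : Prop := ∀ ε : ℝ, 0 < ε → ∃ C : ℝ, 1 ≤ C ∧ ∀ N K Y : ℕ, 1 ≤ N → 1 ≤ K → K ≤ N →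
  ∀ S : Finset (ℕ × ℕ × ℕ), (∀ t ∈ S, 1 ≤ t.1 ∧ t.1 ≤ N ∧ 1 ≤ t.2.2 ∧ t.2.2 < t.2.1 ∧
    t.2.1 ≤ N ∧ t.2.1 < t.2.2 + Y ∧ IsSquare (t.1 ^ 2 + t.2.1 ^ 2) ∧
    IsSquare (t.1 ^ 2 + t.2.2 ^ 2) ∧ Nat.gcd t.1 t.2.1 ≤ K ∧ Nat.gcd t.1 t.2.2 ≤ K) →
  (S.card : ℝ) ≤ C * (K : ℝ) ^ 12 * (Y : ℝ) * (N : ℝ) ^ ε

/-- relation for the lattice lemma -/
def Rel (p p' s s' G P Q : ℕ) : Prop := 0 < P ∧ 0 < Q ∧ ∃ x x' : ℕ, 0 < x ∧ 0 < x' ∧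
  s * P ^ 2 = p * x + p' * x' ∧ s' * Q ^ 2 + p' * x' = p * x ∧ Nat.gcd (p * x) (p' * x') ≤ G

/-- LLA: separation in one class -/
def ST_LLA : Prop := ∀ S G p p' s s' P₁ Q₁ P₂ Q₂ P₃ Q₃ : ℕ, 1 ≤ s → s ≤ S → 1 ≤ s' → s' ≤ S →
  1 ≤ G → 0 < p → 0 < p' → Nat.Coprime p p' →
  Rel p p' s s' G P₁ Q₁ → Rel p p' s s' G P₂ Q₂ → Rel p p' s s' G P₃ Q₃ →
  Int.gcd ((p : ℤ) * p') ((P₁ : ℤ) * Q₂ - P₂ * Q₁) = Int.gcd ((p : ℤ) * p') ((P₁ : ℤ) * Q₃ - P₃ * Q₁) →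
  (P₂ : ℤ) * Q₃ - P₃ * Q₂ = 0 ∨
    ((p : ℤ) * p') ≤ 64 * (S : ℤ) ^ 8 * (G : ℤ) ^ 5 * |(P₂ : ℤ) * Q₃ - P₃ * Q₂|

/-- LL: lattice lemma -/
def ST_LL : Prop := ∀ ε : ℝ, 0 < ε → ∀ j : ℕ, ∃ C : ℝ, 1 ≤ C ∧ ∀ N S G W p p' : ℕ, 1 ≤ N → 1 ≤ S →
  1 ≤ G → 0 < p → 0 < p' → p ≤ j * N ^ j → p' ≤ j * N ^ j → Nat.Coprime p p' →
  ∀ Z : Finset (ℕ × ℕ), (∀ z ∈ Z, 0 < z.2 ∧ p' * z.2 < p * z.1 ∧ p * z.1 ≤ W ∧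
    Nat.gcd (p * z.1) (p' * z.2) ≤ G ∧ SS S (p * z.1 + p' * z.2) ∧ SS S (p * z.1 - p' * z.2)) →
  (Z.card : ℝ) ≤ C * (N : ℝ) ^ ε * ((S : ℝ) * G) ^ 11 * (1 + (W : ℝ) / ((p : ℝ) * p'))

/-- CC: conic lemma for pairs -/
def ST_CC : Prop := ∀ ε : ℝ, 0 < ε → ∀ j : ℕ, ∃ C : ℝ, 1 ≤ C ∧ ∀ N S W p p' q q' : ℕ, 1 ≤ N →
  1 ≤ S → S ≤ j * N ^ j → W ≤ j * N ^ j → 0 < p → p ≤ j * N ^ j → 0 < p' → p' ≤ j * N ^ j →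
  0 < q → q ≤ j * N ^ j → 0 < q' → q' ≤ j * N ^ j → q * p' ≠ q' * p →
  ∀ Z : Finset (ℕ × ℕ), (∀ z ∈ Z, 0 < z.2 ∧ p' * z.2 < p * z.1 ∧ p * z.1 ≤ W ∧
    SS S (p * z.1 + p' * z.2) ∧ SS S (p * z.1 - p' * z.2) ∧ SS S (q * z.1 + q' * z.2)) →
  (Z.card : ℝ) ≤ C * (N : ℝ) ^ ε * (S : ℝ) ^ 3 * Real.sqrt W

/-- XY: pairs of pairs -/
def ST_XY : Prop := ∀ ε : ℝ, 0 < ε → ∀ j : ℕ, ∃ C : ℝ, 1 ≤ C ∧ ∀ N S W : ℕ, 1 ≤ N →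
  1 ≤ S → W ≤ j * N ^ j →
  ∀ Z : Finset ((ℕ × ℕ) × ℕ × ℕ), (∀ z ∈ Z, 0 < z.1.1 ∧ 0 < z.2.1 ∧
    z.1.1 * z.2.1 < z.1.2 * z.2.2 ∧ z.1.2 * z.2.2 ≤ W ∧
    SS S (z.1.2 * z.2.2 + z.1.1 * z.2.1) ∧ SS S (z.1.2 * z.2.2 - z.1.1 * z.2.1)) →
  (Z.card : ℝ) ≤ C * (N : ℝ) ^ ε * (S : ℝ) ^ 2 * W

/-- LP: the optimisation (logarithms of the sizes) -/
def ST_LP : Prop := ∀ a a' b b' g g' d d' n l c : ℝ, 0 ≤ a → 0 ≤ a' → 0 ≤ b → 0 ≤ b' → 0 ≤ g →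
  0 ≤ g' → 0 ≤ d → 0 ≤ d' → 0 ≤ n → 0 ≤ l → 0 ≤ c →
  a + b ≤ a' + b' + c → a' + b' ≤ a + b + l + c → a + g ≤ a' + g' + c → a' + g' ≤ a + g + l + c →
  g' + d' ≤ g + d + c → g + d ≤ g' + d' + l + c → b' + d' ≤ b + d + c → b + d ≤ b' + d' + l + c →
  a' + b' + g + d ≤ n + c → a' + g' + b + d ≤ n + c →
  a' + b' + max 0 (g' - a) + max 0 (d - b') ≤ 9 / 10 * n + l + 10 * c ∨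
  a' + g' + max 0 (b' - a) + max 0 (d - g') ≤ 9 / 10 * n + l + 10 * c ∨
  b + b' + g + g' + (a' + b' + g + d) / 2 ≤ 9 / 10 * n + l + 10 * c ∨
  a + a' + d + d' + (a' + b' + g + d) / 2 ≤ 9 / 10 * n + l + 10 * c

/-- BOX: the number of 8-tuples -/
def ST_BOX : Prop := ∀ ε : ℝ, 0 < ε → ∃ C : ℝ, 1 ≤ C ∧ ∀ N S G Y : ℕ, 1 ≤ N → 1 ≤ S → 1 ≤ G →
  S ≤ 16 * N ^ 3 → 1 ≤ Y → Y ≤ N →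
  ∀ E : Finset ((ℕ × ℕ) × (ℕ × ℕ) × (ℕ × ℕ) × ℕ × ℕ),
  (∀ e ∈ E, Tup S G N Y e.1.1 e.1.2 e.2.1.1 e.2.1.2 e.2.2.1.1 e.2.2.1.2 e.2.2.2.1 e.2.2.2.2) →
  (E.card : ℝ) ≤ C * ((S : ℝ) * G) ^ 24 * (N : ℝ) ^ (9 / 10 + ε) * ((N : ℝ) / Y)

/-- NP: quadruples with small gcds are few -/
def ST_NP : Prop := ∀ ε : ℝ, 0 < ε → ∃ C : ℝ, 1 ≤ C ∧ ∀ N K : ℕ, 1 ≤ N → 1 ≤ K → K ≤ N →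
  ∀ S : Finset (ℕ × ℕ × ℕ × ℕ),
  (∀ q ∈ S, Quad N q.1 q.2.1 q.2.2.1 q.2.2.2 ∧ Nat.gcd q.1 q.2.2.1 ≤ K ∧
    Nat.gcd q.1 q.2.2.2 ≤ K ∧ Nat.gcd q.2.1 q.2.2.1 ≤ K ∧ Nat.gcd q.2.1 q.2.2.2 ≤ K) →
  (S.card : ℝ) ≤ C * (K : ℝ) ^ 96 * (N : ℝ) ^ (19 / 20 + ε)

/-- FIN: the hand-in -/
def ST_FIN : Prop := ∀ m n : ℕ, 2 ≤ m → 2 ≤ n → 5 ≤ m + n →
  ∃ θ C : ℝ, θ < 1 ∧ ∀ X : ℕ, 1 ≤ X →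
    {P : Finset ℕ × Finset ℕ | P.1.card = m ∧ P.2.card = n ∧
      (∀ a ∈ P.1, ∀ b ∈ P.2, IsSquare (a ^ 2 + b ^ 2)) ∧
      (∀ x ∈ P.1 ∪ P.2, 1 ≤ x ∧ x ≤ X) ∧ (P.1 ∪ P.2).gcd id = 1}.Finite ∧
    ({P : Finset ℕ × Finset ℕ | P.1.card = m ∧ P.2.card = n ∧
      (∀ a ∈ P.1, ∀ b ∈ P.2, IsSquare (a ^ 2 + b ^ 2)) ∧
      (∀ x ∈ P.1 ∪ P.2, 1 ≤ x ∧ x ≤ X) ∧ (P.1 ∪ P.2).gcd id = 1}.ncard : ℝ) ≤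
      C * (X : ℝ) ^ θ

end Pool.Agent.Helper89.TT
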